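import Pool.Agent.N616.GL.Gen

/-!
If the neighbour lists of a computable graph are computable from a 1-generic set then they are
computable, and a 2-colourable graph with computable neighbour lists has a computable 4-colouring.
-/

namespace Pool.Agent.N616.GL

open Encodable Pool.Agent.Helper578.JD Pool.Agent.Helper578.JD.Defs
open Pool.Agent.Helper578.JD.Oracle
open Nat.Partrec (Code)

theorem list_lt : ∀ (l : List ℕ) (y : ℕ), y ∈ l → y < encode l := by
  intro l
  induction l with
  | nil => intro y hy; simp at hy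
  | cons a l ih =>
    intro y hy
    have h : encode (a :: l) = Nat.succ (Nat.pair (encode a) (encode l)) := rfl
    rw [h]
    have h2 := Nat.add_le_pair (encode a) (encode l)
    simp only [encode_nat] at h2 ⊢
    rcases List.mem_cons.1 hy with h1 | h1
    · omega
    · have := ih y h1; omega

theorem fs_lt (s : Finset ℕ) (y : ℕ) (hy : y ∈ s) : y < encode s := by
  have h : ∃ l : List ℕ, (∀ x, x ∈ l ↔ x ∈ s) ∧ encode s = encode l := by
    have h1 : (decode (encode s.1) : Option (Multiset ℕ)) = some s.1 := encodek _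
    have h2 : (decode (encode s.1) : Option (Multiset ℕ)) =
        some ((Denumerable.ofNat (List ℕ) (encode s.1) : List ℕ) : Multiset ℕ) := by
      change Functor.map _ (decode (α := List ℕ) (encode s.1)) = _
      rw [Denumerable.decode_eq_ofNat]
      rfl
    rw [h2] at h1
    have h3 : ((Denumerable.ofNat (List ℕ) (encode s.1) : List ℕ) : Multiset ℕ) = s.1 :=
      Option.some.inj h1
    refine ⟨Denumerable.ofNat (List ℕ) (encode s.1), fun x => ?_, ?_⟩
    · rw [← Multiset.mem_coe, h3]; rfl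
    · rw [Denumerable.encode_ofNat]; rfl
  obtain ⟨l, hl, he⟩ := h
  rw [he]
  exact list_lt l y ((hl y).2 hy)

/-- computable bounds for the neighbours -/
theorem bound_of_generic {A : Set ℕ} (hA : OneGen A ∅) {adj : ℕ → ℕ → Prop}
    (hadj : ComputablePred fun p : ℕ × ℕ => adj p.1 p.2) {N : ℕ → Finset ℕ}
    (hN : ∀ x y, adj x y ↔ y ∈ N x)
    (hNA : TuringReducible (fun x : ℕ => Part.some (encode (N x))) (chi A)) :
    ∃ b : ℕ → ℕ, Computable b ∧ ∀ x y, adj x y → y < b x := by
  rw [turingReducible_fun_iff] at hNA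
  obtain ⟨R, hR, hRN⟩ := hNA
  have hRN' : ∀ x v, encode (N x) = v ↔ ∃ c, R (x, v) c ∧ Ok A c := fun x v => hRN (x, v)
  have hV : REIn ∅ fun p : Info => ∃ z : (ℕ × ℕ) × ℕ, R z.1 p ∧ adj z.1.1 z.2 ∧ z.1.2 ≤ z.2 := by
    refine REIn.of_re (RE.ex (p := fun (p : Info) (z : (ℕ × ℕ) × ℕ) =>
      R z.1 p ∧ adj z.1.1 z.2 ∧ z.1.2 ≤ z.2) ?_)
    refine RE.and ?_ (RE.and ?_ ?_)
    · exact RE.comp hR (f := fun w : Info × ((ℕ × ℕ) × ℕ) => (w.2.1, w.1)) (by fun_prop)
    · exact RE.comp (RE.of_comput hadj) (f := fun w : Info × ((ℕ × ℕ) × ℕ) => (w.2.1.1, w.2.2))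
        (by fun_prop)
    · exact RE.le (by fun_prop) (by fun_prop)
  rcases hA _ hV with ⟨p, h1, ⟨⟨x, v⟩, y⟩, h2, h3, h4⟩ | ⟨p, h1, h2⟩
  · exfalso
    have h5 : encode (N x) = v := (hRN' x v).2 ⟨p, h2, h1⟩
    have h6 := fs_lt (N x) y ((hN x y).1 h3)
    simp only at h4
    omega
  · obtain ⟨f, hf, hf1, hf2⟩ := RE.uniformize (α := ℕ) (β := ℕ)
      (r := fun x v => ∃ q : Info, R (x, v) q ∧ Cons (app p q)) (by
        refine RE.ex (p := fun (z : ℕ × ℕ) (q : Info) => R (z.1, z.2) q ∧ Cons (app p q)) ?_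
        refine RE.and ?_ ?_
        · exact RE.comp hR (f := fun w : (ℕ × ℕ) × Info => ((w.1.1, w.1.2), w.2)) (by fun_prop)
        · exact cons_re (f := fun w : (ℕ × ℕ) × Info => app p w.2) (by unfold app; fun_prop))
    have htot : ∀ x, (f x).Dom := by
      intro x
      rw [hf1]
      obtain ⟨c, hc1, hc2⟩ := (hRN' x _).1 rfl
      exact ⟨_, c, hc1, okCons (okApp h1 hc2)⟩
    refine ⟨fun x => (f x).get (htot x), hf.of_eq_tot fun x => Part.get_mem _, ?_⟩
    intro x y hxy
    obtain ⟨q, hq1, hq2⟩ := hf2 x _ (Part.get_mem (htot x))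
    by_contra hlt
    push Not at hlt
    exact h2 q ⟨((x, (f x).get (htot x)), y), hq1, hxy, hlt⟩ hq2

theorem sel {α β : Type*} [Primcodable α] [Primcodable β] {r : α → β → Prop}
    (hr : REPred fun x : α × β => r x.1 x.2) (ht : ∀ a, ∃ b, r a b) :
    ∃ f : α → β, Computable f ∧ ∀ a, r a (f a) := by
  obtain ⟨f, hf, hf1, hf2⟩ := RE.uniformize hr
  have htot : ∀ a, (f a).Dom := fun a => (hf1 a).2 (ht a)
  exact ⟨fun a => (f a).get (htot a), hf.of_eq_tot fun a => Part.get_mem _,
    fun a => hf2 a _ (Part.get_mem _)⟩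

theorem exists_col {adj : ℕ → ℕ → Prop} (hadj : ComputablePred fun p : ℕ × ℕ => adj p.1 p.2)
    (hsymm : ∀ x y, adj x y → adj y x) {b : ℕ → ℕ} (hb : Computable b)
    (hb' : ∀ x y, adj x y → y < b x) {f : ℕ → Bool} (hf : ∀ x y, adj x y → f x ≠ f y) :
    ∃ c : ℕ → ℕ, Computable c ∧ (∀ x, c x < 4) ∧ ∀ x y, adj x y → c x ≠ c y := by
  obtain ⟨nx, hnx, hnx'⟩ := sel (α := ℕ) (β := ℕ) (r := fun n m => n < m ∧ ∀ x < n, b x ≤ m) (by
      refine RE.and (RE.lt (by fun_prop) (by fun_prop)) ?_
      refine RE.all_lt (p := fun (z : ℕ × ℕ) x => b x ≤ z.2) ?_ (by fun_prop)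
      exact RE.le (hb.comp Computable.snd) (by fun_prop)) (by
      intro n
      refine ⟨n + 1 + (Finset.range n).sum b, by omega, fun x hx => ?_⟩
      have : b x ≤ (Finset.range n).sum b :=
        Finset.single_le_sum (f := b) (fun i _ => Nat.zero_le _) (Finset.mem_range.2 hx)
      exact le_trans this (Nat.le_add_left _ _))
  obtain ⟨L, hL0, hLs, hLc⟩ : ∃ L : ℕ → ℕ, L 0 = 0 ∧ (∀ k, L (k + 1) = nx (L k)) ∧
      Computable L := by
    refine ⟨fun k => Nat.rec 0 (fun _ n => nx n) k, rfl, fun k => rfl, ?_⟩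
    exact Computable.nat_rec (f := fun k : ℕ => k) (g := fun _ => 0)
      (h := fun (_ : ℕ) (z : ℕ × ℕ) => nx z.2) Computable.id (Computable.const 0)
      (hnx.comp (Computable.snd.comp Computable.snd))
  have hLlt : ∀ k, L k < L (k + 1) := fun k => by rw [hLs]; exact (hnx' (L k)).1
  have hLmono : StrictMono L := strictMono_nat_of_lt_succ hLlt
  have hLadj : ∀ k x y, x < L k → adj x y → y < L (k + 1) := by
    intro k x y hx hxy
    have h1 := hb' x y hxy
    have h2 := (hnx' (L k)).2 x hx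
    rw [hLs]
    omega
  obtain ⟨ki, hki, hki'⟩ := sel (α := ℕ) (β := ℕ) (r := fun x k => L k ≤ x ∧ x < L (k + 1)) (by
      refine RE.and (RE.le (hLc.comp Computable.snd) (by fun_prop)) ?_
      exact RE.lt (by fun_prop) (hLc.comp (by fun_prop))) (by
      intro x
      have hex : ∃ k, x < L (k + 1) := ⟨x, lt_of_lt_of_le (Nat.lt_succ_self x) (hLmono.id_le _)⟩
      classical
      refine ⟨Nat.find hex, ?_, Nat.find_spec hex⟩
      rcases Nat.eq_zero_or_pos (Nat.find hex) with h0 | h0
      · rw [h0, hL0]; exact Nat.zero_le _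
      · have h1 := Nat.find_min hex (m := Nat.find hex - 1) (by omega)
        have h2 : Nat.find hex - 1 + 1 = Nat.find hex := by omega
        rw [h2] at h1
        omega)
  obtain ⟨cl, hcl, hcl'⟩ := sel (α := ℕ) (β := List Bool)
    (r := fun n l => l.length = n ∧ ∀ x < n, ∀ y < x, adj x y → l[x]? ≠ l[y]?) (by
      refine RE.and (RE.eq (by fun_prop) (by fun_prop)) ?_
      refine RE.all_lt (p := fun (z : ℕ × List Bool) x => ∀ y < x, adj x y → z.2[x]? ≠ z.2[y]?) ?_
        (by fun_prop)
      refine RE.all_lt (p := fun (z : (ℕ × List Bool) × ℕ) y => adj z.2 y → z.1.2[z.2]? ≠ z.1.2[y]?)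
        ?_ (by fun_prop)
      have h1 : REPred fun w : ((ℕ × List Bool) × ℕ) × ℕ => ¬ adj w.1.2 w.2 ∨
          w.1.1.2[w.1.2]? ≠ w.1.1.2[w.2]? := by
        refine RE.or ?_ (RE.ne (by fun_prop) (by fun_prop))
        exact RE.comp (RE.of_comput (ComputablePred.not hadj))
          (f := fun w : ((ℕ × List Bool) × ℕ) × ℕ => (w.1.2, w.2)) (by fun_prop)
      have h2 : (fun w : ((ℕ × List Bool) × ℕ) × ℕ => ¬ adj w.1.2 w.2 ∨
          w.1.1.2[w.1.2]? ≠ w.1.1.2[w.2]?) = fun w : ((ℕ × List Bool) × ℕ) × ℕ =>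
          (adj w.1.2 w.2 → w.1.1.2[w.1.2]? ≠ w.1.1.2[w.2]?) := by
        funext w
        exact propext (imp_iff_not_or).symm
      rwa [h2] at h1) (by
      intro n
      refine ⟨(List.range n).map f, by simp, fun x hx y hy hxy => ?_⟩
      have hyn : y < n := by omega
      simp only [List.getElem?_map, List.getElem?_range hx, List.getElem?_range hyn, Option.map_some]
      intro h
      exact hf x y hxy (Option.some.inj h))
  have hcolor : Computable fun x : ℕ => cl (L (ki x + 1)) := hcl.comp (hLc.comp (by fun_prop))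
  refine ⟨fun x => 2 * (ki x % 2) + if (cl (L (ki x + 1)))[x]? = some true then 1 else 0, ?_, ?_, ?_⟩
  · have h1 : Computable fun x : ℕ => (cl (L (ki x + 1)))[x]? := by fun_prop
    have h2 : Computable fun x : ℕ =>
        if (cl (L (ki x + 1)))[x]? = some true then 1 else 0 :=
      RE.cite (RE.cp_eq h1 (by fun_prop)) (by fun_prop) (by fun_prop)
    have h3 : Computable fun x : ℕ => ki x % 2 :=
      (Primrec.nat_mod.comp Primrec.id (Primrec.const 2)).to_comp.comp hki
    fun_prop
  · intro x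
    have := Nat.mod_lt (ki x) (y := 2) (by omega)
    dsimp only
    split_ifs <;> omega
  · have key : ∀ x y, x < y → adj x y →
        2 * (ki x % 2) + (if (cl (L (ki x + 1)))[x]? = some true then 1 else 0) ≠
        2 * (ki y % 2) + (if (cl (L (ki y + 1)))[y]? = some true then 1 else 0) := by
      intro x y hxy hadjxy
      obtain ⟨hx1, hx2⟩ := hki' x
      obtain ⟨hy1, hy2⟩ := hki' y
      have h1 : ki x ≤ ki y := by
        by_contra h
        push Not at h
        have := hLmono.monotone (show ki y + 1 ≤ ki x by omega)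
        omega
      have h2 : y < L (ki x + 1 + 1) := hLadj _ x y hx2 hadjxy
      have h3 : ki y ≤ ki x + 1 := by
        by_contra h
        push Not at h
        have := hLmono.monotone (show ki x + 1 + 1 ≤ ki y by omega)
        omega
      rcases Nat.lt_or_ge (ki x) (ki y) with h4 | h4
      · have h5 : ki y = ki x + 1 := by omega
        have h6 : ki x % 2 ≠ ki y % 2 := by omega
        have h7 := Nat.mod_lt (ki x) (y := 2) (by omega)
        have h8 := Nat.mod_lt (ki y) (y := 2) (by omega)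
        split_ifs <;> omega
      · have h5 : ki y = ki x := by omega
        rw [h5] at hy2 ⊢
        obtain ⟨hl1, hl2⟩ := hcl' (L (ki x + 1))
        have h6 := hl2 y hy2 x hxy (hsymm x y hadjxy)
        have h7 : ∃ u, (cl (L (ki x + 1)))[x]? = some u := by
          exact ⟨_, List.getElem?_eq_getElem (by rw [hl1]; exact hx2)⟩
        have h8 : ∃ u, (cl (L (ki x + 1)))[y]? = some u := by
          exact ⟨_, List.getElem?_eq_getElem (by rw [hl1]; exact hy2)⟩
        obtain ⟨u, hu⟩ := h7
        obtain ⟨w, hw⟩ := h8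
        rw [hu, hw] at h6 ⊢
        intro h9
        apply h6
        cases u <;> cases w <;> simp_all
    intro x y hxy
    rcases Nat.lt_trichotomy x y with h | h | h
    · exact key x y h hxy
    · subst h
      exact absurd rfl (hf x x hxy)
    · exact (key y x h (hsymm x y hxy)).symm

end Pool.Agent.N616.GL
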