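import Pool.Agent.Helper578.JD.Exist

/-!
A 1-generic set computable from the halting set, and two consequences of 1-genericity.
-/

namespace Pool.Agent.N616.GL

open Encodable Pool.Agent.Helper578.JD Pool.Agent.Helper578.JD.Defs
open Pool.Agent.Helper578.JD.Oracle
open Nat.Partrec (Code)

/-- the halting set -/
def K : Set ℕ := {n | ((Denumerable.ofNat Code n).eval n).Dom}

/-- every r.e. predicate reduces to the halting set -/
theorem re_to_K {α : Type*} [Primcodable α] {P : α → Prop} (hP : REPred P) :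
    ∃ g : α → ℕ, Computable g ∧ ∀ a, g a ∈ K ↔ P a := by
  obtain ⟨g, hg, h⟩ := smn (α := α) (β := ℕ) (P := fun a _ => P a)
    (RE.comp hP (f := fun x : α × ℕ => x.1) Computable.fst)
  refine ⟨g, hg, fun a => ?_⟩
  exact h a (g a)

theorem exists_oneGen : ∃ X : Set ℕ, Red X K ∧ OneGen X ∅ := by
  obtain ⟨f, hf, hf'⟩ := re_to_K (α := ℕ × Info) (P := fun x => W x.1 (encode x.2))
    (RE.comp W_re (f := fun x : ℕ × Info => (x.1, encode x.2)) (by fun_prop))
  obtain ⟨g, hg, hg'⟩ := re_to_K (α := ℕ × Info)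
    (P := fun x => ∃ q : Info, W x.1 (encode q) ∧ Cons (x.2.1 ++ q.1, x.2.2 ++ q.2)) (by
      refine RE.ex (p := fun (x : ℕ × Info) (q : Info) =>
        W x.1 (encode q) ∧ Cons (x.2.1 ++ q.1, x.2.2 ++ q.2)) ?_
      refine RE.and ?_ (cons_re (by fun_prop))
      exact RE.comp W_re (f := fun z : (ℕ × Info) × Info => (z.1.1, encode z.2)) (by fun_prop))
  obtain ⟨X, hX, h⟩ := generic_aux (Z := K) hf hg (by
    intro s p
    rw [hg']
    constructor
    · rintro ⟨q, h1, h2⟩; exact ⟨q, (hf' (s, q)).2 h1, h2⟩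
    · rintro ⟨q, h1, h2⟩; exact ⟨q, (hf' (s, q)).1 h1, h2⟩)
  refine ⟨X, hX, ?_⟩
  rintro V ⟨R, hR, hV⟩
  have hV' : ∀ q, V q ↔ ∃ c : Info, R q c ∧ ∀ x ∈ c.1, False := by
    intro q
    rw [hV q]
    constructor
    · rintro ⟨c, h1, h2⟩; exact ⟨c, h1, fun x hx => h2.1 x hx⟩
    · rintro ⟨c, h1, h2⟩
      exact ⟨c, h1, fun x hx => (h2 x hx).elim, fun x _ => Set.notMem_empty x⟩
  have hVre : REPred V := by
    have h1 : REPred fun q : Info => ∃ c : Info, R q c ∧ ∀ x ∈ c.1, False := by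
      refine RE.ex (p := fun (q : Info) (c : Info) => R q c ∧ ∀ x ∈ c.1, False) ?_
      refine RE.and hR ?_
      exact RE.all_mem (p := fun (_ : Info × Info) (_ : ℕ) => False)
        (l := fun x : Info × Info => x.2.1) (RE.const False) (by fun_prop)
    have h2 : (fun q : Info => ∃ c : Info, R q c ∧ ∀ x ∈ c.1, False) = V :=
      funext fun q => propext (hV' q).symm
    rwa [h2] at h1
  obtain ⟨e, -, he⟩ := smn (α := ℕ) (β := Info) (P := fun _ y => V y)
    (RE.comp hVre (f := fun x : ℕ × Info => x.2) (by fun_prop))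
  rcases h (e 0) with ⟨q, h1, h2⟩ | ⟨p, h1, h2⟩
  · exact Or.inl ⟨q, h1, (he 0 q).1 ((hf' (e 0, q)).1 h2)⟩
  · exact Or.inr ⟨p, h1, fun q hq => h2 q ((hf' (e 0, q)).2 ((he 0 q).2 hq))⟩

/-- a 1-generic set is not computable -/
theorem not_computable {A : Set ℕ} (hA : OneGen A ∅) : ¬ ComputablePred (fun n : ℕ => n ∈ A) := by
  intro hc
  have hV : REIn ∅ fun p : Info => (∃ x ∈ p.1, x ∉ A) ∨ ∃ x ∈ p.2, x ∈ A := by
    refine REIn.of_re (RE.or ?_ ?_)
    · exact RE.ex_mem (p := fun (_ : Info) (x : ℕ) => x ∉ A) (l := fun p : Info => p.1)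
        (RE.comp (RE.of_comput (ComputablePred.not hc)) Computable.snd) (by fun_prop)
    · exact RE.ex_mem (p := fun (_ : Info) (x : ℕ) => x ∈ A) (l := fun p : Info => p.2)
        (RE.comp (RE.of_comput hc) Computable.snd) (by fun_prop)
  rcases hA _ hV with ⟨p, h1, h2⟩ | ⟨p, h1, h2⟩
  · rcases h2 with ⟨x, hx, hx'⟩ | ⟨x, hx, hx'⟩
    · exact hx' (h1.1 x hx)
    · exact h1.2 x hx hx'
  · obtain ⟨x, hx⟩ := Infinite.exists_notMem_finset (p.1 ++ p.2).toFinset
    have hx1 : x ∉ p.1 := fun h => hx (by simp [h])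
    have hx2 : x ∉ p.2 := fun h => hx (by simp [h])
    by_cases hxA : x ∈ A
    · refine h2 ([], [x]) (Or.inr ⟨x, by simp, hxA⟩) ?_
      intro y hy hy'
      simp only [app, List.append_nil, List.mem_append, List.mem_singleton] at hy hy'
      rcases hy' with h | h
      · exact h1.2 y h (h1.1 y hy)
      · exact hx1 (h ▸ hy)
    · refine h2 ([x], []) (Or.inl ⟨x, by simp, hxA⟩) ?_
      intro y hy hy'
      simp only [app, List.append_nil, List.mem_append, List.mem_singleton] at hy hy'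
      rcases hy with h | h
      · exact h1.2 y hy' (h1.1 y h)
      · exact hx2 (h ▸ hy')

end Pool.Agent.N616.GL
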